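import Mathlib

set_option autoImplicit false

namespace Pool.Agent.Results.MP_5bfb0a_al.AlmostCommutes

open Pointwise

universe u

/-- `Λ` is commensurated: `Λ ∩ g Λ g⁻¹` has finite index in `Λ` for every `g`. -/
def Commensurated {Γ : Type u} [Group Γ] (Λ : Subgroup Γ) : Prop :=
  ∀ g : Γ, ((Λ ⊓ Λ.map (MulAut.conj g).toMonoidHom).subgroupOf Λ).FiniteIndex

/-- `Λ` almost commutes with compacts. -/
def CommutesWithCompacts {Γ : Type u} [Group Γ] [TopologicalSpace Γ] (Λ : Subgroup Γ) : Prop :=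
  ∀ C : Set Γ, IsCompact C → ∃ C' : Set Γ, IsCompact C' ∧
    C * (Λ : Set Γ) ⊆ (Λ : Set Γ) * C' ∧ (Λ : Set Γ) * C ⊆ C' * (Λ : Set Γ)

variable {Γ : Type u} [Group Γ] {Λ : Subgroup Γ}

lemma mem_iff (g : Γ) (a b : Λ) :
    a⁻¹ * b ∈ (Λ ⊓ Λ.map (MulAut.conj g).toMonoidHom).subgroupOf Λ ↔ (a * g)⁻¹ * (b * g) ∈ Λ := by
  rw [Subgroup.mem_subgroupOf, Subgroup.mem_inf]
  constructor
  · rintro ⟨-, x, hx, e⟩
    have e' : g * x * g⁻¹ = (a : Γ)⁻¹ * b := e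
    have : ((a : Γ) * g)⁻¹ * (b * g) = x := by
      rw [mul_inv_rev, mul_assoc, ← mul_assoc (a : Γ)⁻¹, ← e']; group
    rwa [this]
  · intro h
    refine ⟨(a⁻¹ * b).2, _, h, ?_⟩
    show g * _ * g⁻¹ = (a : Γ)⁻¹ * b
    group

def Dist (Λ : Subgroup Γ) {k : ℕ} (l : Fin k → Λ) (g : Γ) : Prop :=
  ∀ i j, i ≠ j → ((l i : Γ) * g)⁻¹ * (l j * g) ∉ Λ

lemma bound (h : Commensurated Λ) (g : Γ) : ∃ k, ¬ ∃ l : Fin k → Λ, Dist Λ l g := by
  have := h g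
  let H := (Λ ⊓ Λ.map (MulAut.conj g).toMonoidHom).subgroupOf Λ
  have : Finite (Λ ⧸ H) := Subgroup.finite_quotient_of_finiteIndex
  refine ⟨Nat.card (Λ ⧸ H) + 1, ?_⟩
  rintro ⟨l, hl⟩
  have hi : Function.Injective (fun i => (QuotientGroup.mk (l i) : Λ ⧸ H)) := by
    intro i j e
    by_contra hij
    exact hl i j hij ((mem_iff g _ _).1 (QuotientGroup.eq.1 e))
  have := Nat.card_le_card_of_injective _ hi
  simp at this

lemma fin_cover (h : Commensurated Λ) (g : Γ) :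
    ∃ F : Set Γ, F.Finite ∧ ∀ μ ∈ Λ, ∃ f ∈ F, f⁻¹ * (μ * g) ∈ Λ := by
  have := h g
  let H := (Λ ⊓ Λ.map (MulAut.conj g).toMonoidHom).subgroupOf Λ
  have : Finite (Λ ⧸ H) := Subgroup.finite_quotient_of_finiteIndex
  refine ⟨Set.range (fun q : Λ ⧸ H => (q.out : Γ) * g), Set.finite_range _, fun μ hμ => ?_⟩
  refine ⟨_, ⟨QuotientGroup.mk ⟨μ, hμ⟩, rfl⟩, (mem_iff g _ ⟨μ, hμ⟩).1 ?_⟩
  exact QuotientGroup.eq.1 (QuotientGroup.out_eq' _)

variable [TopologicalSpace Γ] [IsTopologicalGroup Γ]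

lemma dist_open (hc : IsClosed (Λ : Set Γ)) {k : ℕ} (l : Fin k → Λ) : IsOpen {g | Dist Λ l g} := by
  simp only [Dist, Set.setOf_forall]
  refine isOpen_iInter_of_finite fun i => isOpen_iInter_of_finite fun j =>
    isOpen_iInter_of_finite fun _ => ?_
  exact hc.isOpen_compl.preimage (f := fun g : Γ => ((l i : Γ) * g)⁻¹ * (l j * g)) (by fun_prop)

lemma local_one [LocallyCompactSpace Γ] [T2Space Γ] (hc : IsClosed (Λ : Set Γ))
    (h : Commensurated Λ) : ∃ (g0 : Γ) (W F : Set Γ), W ∈ nhds g0 ∧ IsCompact W ∧ F.Finite ∧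
      ∀ μ ∈ Λ, ∀ g ∈ W, ∃ f ∈ F, (f * g)⁻¹ * (μ * g) ∈ Λ := by
  classical
  have hcl : ∀ k, IsClosed {g : Γ | ¬ ∃ l : Fin k → Λ, Dist Λ l g} := fun k => by
    have : IsOpen {g : Γ | ∃ l : Fin k → Λ, Dist Λ l g} := by
      rw [Set.setOf_exists]; exact isOpen_iUnion fun l => dist_open hc l
    exact this.isClosed_compl
  obtain ⟨k, g1, hg1⟩ := nonempty_interior_of_iUnion_of_closed hcl (by
    rw [Set.eq_univ_iff_forall]
    intro g
    obtain ⟨k, hk⟩ := bound h g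
    exact Set.mem_iUnion.2 ⟨k, hk⟩)
  set U := interior {g : Γ | ¬ ∃ l : Fin k → Λ, Dist Λ l g} with hU
  have ex : ∃ m, ¬ ∃ g ∈ U, ∃ l : Fin m → Λ, Dist Λ l g :=
    ⟨k, fun ⟨g, hg, hl⟩ => interior_subset hg hl⟩
  have h0 : Nat.find ex ≠ 0 := by
    intro e
    have := Nat.find_spec ex
    rw [e] at this
    exact this ⟨g1, hg1, Fin.elim0, fun i => i.elim0⟩
  obtain ⟨m, hm⟩ := Nat.exists_eq_succ_of_ne_zero h0
  have h1 := Nat.find_spec ex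
  rw [hm] at h1
  have h2 := Nat.find_min ex (m := m) (by omega)
  push Not at h2
  obtain ⟨g0, hg0, l, hl⟩ := h2
  obtain ⟨W, hW, hWs, hWc⟩ := local_compact_nhds
    ((isOpen_interior.inter (dist_open hc l)).mem_nhds ⟨hg0, hl⟩)
  refine ⟨g0, W, Set.range (fun i => (l i : Γ)), hW, hWc, Set.finite_range _, fun μ hμ g hg => ?_⟩
  by_contra hh
  push Not at hh
  apply h1
  refine ⟨g, (hWs hg).1, Fin.cons ⟨μ, hμ⟩ l, fun i j => ?_⟩
  refine Fin.cases ?_ (fun i' => ?_) i <;> refine Fin.cases ?_ (fun j' => ?_) j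
  · simp
  · intro _ e
    apply hh _ ⟨j', rfl⟩
    simpa using inv_mem e
  · intro _ e
    exact hh _ ⟨i', rfl⟩ e
  · intro hij
    exact (hWs hg).2 i' j' (fun e => hij (by rw [e]))

lemma one_side [LocallyCompactSpace Γ] [T2Space Γ] (hc : IsClosed (Λ : Set Γ))
    (h : Commensurated Λ) (C : Set Γ) (hC : IsCompact C) :
    ∃ C' : Set Γ, IsCompact C' ∧ (Λ : Set Γ) * C ⊆ C' * (Λ : Set Γ) := by
  obtain ⟨g0, W, F, hW, hWc, hF, hWF⟩ := local_one hc h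
  refine hC.induction_on (p := fun C => ∃ C' : Set Γ, IsCompact C' ∧ (Λ : Set Γ) * C ⊆ C' * (Λ : Set Γ))
    ⟨∅, isCompact_empty, by simp⟩ ?_ ?_ ?_
  · rintro s t hst ⟨C', h1, h2⟩
    exact ⟨C', h1, (Set.mul_subset_mul_left hst).trans h2⟩
  · rintro s t ⟨C1, h1, h2⟩ ⟨C2, h3, h4⟩
    refine ⟨C1 ∪ C2, h1.union h3, ?_⟩
    rw [Set.mul_union, Set.union_mul]
    exact Set.union_subset_union h2 h4
  · intro x _
    obtain ⟨F', hF', hF2⟩ := fin_cover h (g0⁻¹ * x)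
    refine ⟨(fun y => y * (g0⁻¹ * x)⁻¹) ⁻¹' W, mem_nhdsWithin_of_mem_nhds ?_,
      F * W * F', (hF.isCompact.mul hWc).mul hF'.isCompact, ?_⟩
    · apply ContinuousAt.preimage_mem_nhds (by fun_prop)
      simpa using hW
    · rintro _ ⟨μ, hμ, y, hy, rfl⟩
      obtain ⟨f, hf, e⟩ := hWF μ hμ _ hy
      obtain ⟨f', hf', e'⟩ := hF2 _ e
      refine ⟨_, ⟨_, ⟨f, hf, _, hy, rfl⟩, f', hf', rfl⟩, _, e', ?_⟩
      simp only
      group

/-- Every closed commensurated subgroup of a locally compact Hausdorff group almost commutes with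
compacts. -/
theorem result (Γ : Type u) [Group Γ] [TopologicalSpace Γ] [IsTopologicalGroup Γ]
    [LocallyCompactSpace Γ] [T2Space Γ] (Λ : Subgroup Γ) (hc : IsClosed (Λ : Set Γ))
    (h : Commensurated Λ) : CommutesWithCompacts Λ := by
  intro C hC
  obtain ⟨C1, h1, h2⟩ := one_side hc h C hC
  obtain ⟨C2, h3, h4⟩ := one_side hc h C⁻¹ hC.inv
  refine ⟨C1 ∪ C2⁻¹, h1.union h3.inv, ?_, h2.trans (Set.mul_subset_mul_right Set.subset_union_left)⟩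
  rintro _ ⟨x, hx, μ, hμ, rfl⟩
  obtain ⟨y, hy, ν, hν, e⟩ := h4 ⟨μ⁻¹, inv_mem hμ, x⁻¹, by simpa using hx, rfl⟩
  refine ⟨ν⁻¹, inv_mem hν, y⁻¹, Or.inr (by simpa using hy), ?_⟩
  simp only at e ⊢
  rw [← mul_inv_rev, e]; group

end Pool.Agent.Results.MP_5bfb0a_al.AlmostCommutes
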